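import Pool.Agent.H95.NV.Targets1

/-!
# A fundamental discriminant is the discriminant of a field (row FUN)
-/

set_option autoImplicit false

open NumberField
open scoped nonZeroDivisors

namespace Pool.Agent.H36.NV

open Pool.Agent.H95.NV
open Pool.Agent.H65.CM4 (Pl rv)

section Int

variable {k : Type} [Field k] [NumberField k]

omit [NumberField k] in
lemma int_iff (x : k) : IsIntegral ℤ x ↔ ∃ t : 𝓞 k, (t : k) = x :=
  ⟨fun h => ⟨⟨x, h⟩, rfl⟩, fun ⟨t, ht⟩ => ht ▸ t.isIntegral_coe⟩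

omit [NumberField k] in
lemma mem_fi (f : Ideal (𝓞 k)) (q : k) : q ∈ fi f ↔ ∀ a ∈ f, IsIntegral ℤ (q * (a : k)) :=
  ⟨fun h a ha => (int_iff _).2 (h a ha), fun h a ha => (int_iff _).1 (h a ha)⟩

lemma TP_ne [IsTotallyReal k] {D : 𝓞 k} (h : TP D) : (D : k) ≠ 0 := by
  intro h0
  obtain ⟨v⟩ : Nonempty (Pl k) := inferInstance
  have h1 := h v
  rw [h0, map_zero] at h1
  exact lt_irrefl _ h1

omit [NumberField k] in
lemma int_sq {x : k} (h : IsIntegral ℤ (x ^ 2)) : IsIntegral ℤ x :=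
  IsIntegral.of_pow (n := 2) (by norm_num) h

/-- (an element of `g` times an element of `Q` is integral) -/
def dual (Q : Submodule (𝓞 k) k) : Ideal (𝓞 k) where
  carrier := {a | ∀ q ∈ Q, IsIntegral ℤ ((a : k) * q)}
  zero_mem' := by
    intro q _
    have : ((0 : 𝓞 k) : k) * q = 0 := by simp
    rw [this]
    exact isIntegral_zero
  add_mem' := by
    intro a b ha hb q hq
    have : ((a + b : 𝓞 k) : k) * q = (a : k) * q + (b : k) * q := by
      push_cast
      ring
    rw [this]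
    exact (ha q hq).add (hb q hq)
  smul_mem' := by
    intro c a ha q hq
    have : ((c • a : 𝓞 k) : k) * q = (c : k) * ((a : k) * q) := by
      rw [smul_eq_mul]
      push_cast
      ring
    rw [this]
    exact c.isIntegral_coe.mul (ha q hq)

omit [NumberField k] in
lemma mem_dual (Q : Submodule (𝓞 k) k) (a : 𝓞 k) :
    a ∈ dual Q ↔ ∀ q ∈ Q, IsIntegral ℤ ((a : k) * q) := Iff.rfl

/-- the double dual -/
lemma fi_dual (Q : Submodule (𝓞 k) k) (h1 : (1 : k) ∈ Q) (d : 𝓞 k) (hd : d ≠ 0)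
    (hQ : ∀ q ∈ Q, IsIntegral ℤ ((d : k) * q)) (q : k) (hq : q ∈ fi (dual Q)) : q ∈ Q := by
  have hfrac : IsFractional (𝓞 k)⁰ Q := by
    refine ⟨d, mem_nonZeroDivisors_of_ne_zero hd, fun b hb => ?_⟩
    obtain ⟨t, ht⟩ := (int_iff _).1 (hQ b hb)
    exact ⟨t, by rw [Algebra.smul_def]; exact ht⟩
  obtain ⟨F, hF⟩ : ∃ F : FractionalIdeal (𝓞 k)⁰ k, (F : Submodule (𝓞 k) k) = Q :=
    ⟨⟨Q, hfrac⟩, rfl⟩
  have hmem : ∀ x : k, x ∈ F ↔ x ∈ Q := by
    intro x
    rw [← hF]
    exact Iff.rfl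
  have hF0 : F ≠ 0 := by
    intro h
    have h2 := (hmem 1).2 h1
    rw [h, FractionalIdeal.mem_zero_iff] at h2
    exact one_ne_zero h2
  have hone : ∀ x : k, x ∈ (1 : FractionalIdeal (𝓞 k)⁰ k) ↔ IsIntegral ℤ x := by
    intro x
    rw [FractionalIdeal.mem_one_iff, int_iff]
  have hinv : ((dual Q : Ideal (𝓞 k)) : FractionalIdeal (𝓞 k)⁰ k) = F⁻¹ := by
    ext x
    rw [FractionalIdeal.mem_coeIdeal, FractionalIdeal.mem_inv_iff hF0]
    constructor
    · rintro ⟨a, ha, rfl⟩ y hy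
      exact (hone _).2 (ha y ((hmem y).1 hy))
    · intro h
      have h2 := (hone _).1 (h 1 ((hmem 1).2 h1))
      rw [mul_one] at h2
      obtain ⟨a, ha⟩ := (int_iff _).1 h2
      refine ⟨a, fun y hy => ?_, ha⟩
      rw [ha]
      exact (hone _).1 (h y ((hmem y).2 hy))
  have h3 : ((dual Q : Ideal (𝓞 k)) : FractionalIdeal (𝓞 k)⁰ k) ≠ 0 := by
    rw [hinv]
    exact inv_ne_zero hF0
  have h4 : q ∈ (((dual Q : Ideal (𝓞 k)) : FractionalIdeal (𝓞 k)⁰ k))⁻¹ := by
    rw [FractionalIdeal.mem_inv_iff h3]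
    intro y hy
    obtain ⟨a, ha, rfl⟩ := (FractionalIdeal.mem_coeIdeal _).1 hy
    exact (hone _).2 ((mem_fi _ _).1 hq a ha)
  rw [hinv, inv_inv] at h4
  exact (hmem q).1 h4

end Int

section Main

variable {k K : Type} [Field k] [NumberField k] [IsTotallyReal k] [Field K] [NumberField K]
  [Algebra k K] [Algebra.IsQuadraticExtension k K]

/-- the second coordinates of the integers of `K` -/
def QQ (b : 𝓞 k) (δ : K) : Submodule (𝓞 k) k where
  carrier := {q | ∃ x : k, IsIntegral ℤ (algebraMap k K x + algebraMap k K q * w b δ)}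
  zero_mem' := ⟨0, by
    rw [map_zero, zero_mul, add_zero]
    exact isIntegral_zero⟩
  add_mem' := by
    rintro q q' ⟨x, hx⟩ ⟨x', hx'⟩
    refine ⟨x + x', ?_⟩
    have : algebraMap k K (x + x') + algebraMap k K (q + q') * w b δ =
        (algebraMap k K x + algebraMap k K q * w b δ) +
          (algebraMap k K x' + algebraMap k K q' * w b δ) := by
      rw [map_add, map_add]
      ring
    rw [this]
    exact hx.add hx'
  smul_mem' := by
    rintro c q ⟨x, hx⟩
    refine ⟨c * x, ?_⟩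
    have h1 : c • q = (c : k) * q := Algebra.smul_def c q
    have : algebraMap k K ((c : k) * x) + algebraMap k K (c • q) * w b δ =
        algebraMap k K (c : k) * (algebraMap k K x + algebraMap k K q * w b δ) := by
      rw [h1, map_mul, map_mul]
      ring
    rw [this]
    exact (c.isIntegral_coe.map (algebraMap k K).toIntAlgHom).mul hx

omit [IsTotallyReal k] [Algebra.IsQuadraticExtension k K] in
lemma mem_QQ (b : 𝓞 k) (δ : K) (q : k) : q ∈ QQ b δ ↔
    ∃ x : k, IsIntegral ℤ (algebraMap k K x + algebraMap k K q * w b δ) := Iff.rfl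

omit [NumberField k] [IsTotallyReal k] [NumberField K] in
lemma int_of_map {x : k} (h : IsIntegral ℤ (algebraMap k K x)) : IsIntegral ℤ x :=
  (isIntegral_algebraMap_iff (FaithfulSMul.algebraMap_injective k K)).1 h

omit [NumberField k] [IsTotallyReal k] [NumberField K] [Algebra.IsQuadraticExtension k K] in
lemma int_map {x : k} (h : IsIntegral ℤ x) : IsIntegral ℤ (algebraMap k K x) :=
  h.map (algebraMap k K).toIntAlgHom

theorem pf_FUN (_hREP : T_REP) (hCOO : T_COO) (hFNV : T_FNV) : T_FUN := by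
  intro k K _ _ _ _ _ _ _ f D δ hTP hδ hFun
  obtain ⟨hf, ⟨b₀, hb₀, c₀, hc₀, hbc⟩, hmax⟩ := hFun
  have hD0 : (D : k) ≠ 0 := TP_ne hTP
  have hD0' : D ≠ 0 := by
    intro h
    rw [h] at hD0
    exact hD0 (by simp)
  obtain ⟨hC1, hC2, hC3, hC4⟩ := hCOO k K D b₀ δ hTP hδ
  obtain ⟨-, hadd, hmul, -, h1f, hdf⟩ := hFNV k f hf
  have hbc' : 4 * (c₀ : k) = (b₀ : k) ^ 2 + (D : k) := by
    have := congrArg (algebraMap (𝓞 k) k) hbc
    rwa [map_mul, map_ofNat, map_add, map_pow] at this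
  have h4 : (4 : k) ≠ 0 := by norm_num
  -- `w ^ 2 = b w - c`
  have hw : (w b₀ δ) ^ 2 = algebraMap k K (b₀ : k) * w b₀ δ - algebraMap k K (c₀ : k) := by
    have e1 : 4 * algebraMap k K (c₀ : k) =
        algebraMap k K (b₀ : k) ^ 2 + algebraMap k K (D : k) := by
      have := congrArg (algebraMap k K) hbc'
      rwa [map_mul, map_ofNat, map_add, map_pow] at this
    have e2 : (4 : K) ≠ 0 := by norm_num
    apply mul_left_cancel₀ e2
    unfold w
    have e3 : 4 * ((algebraMap k K (b₀ : k) + δ) / 2) ^ 2 =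
        algebraMap k K (b₀ : k) ^ 2 + 2 * algebraMap k K (b₀ : k) * δ + δ ^ 2 := by ring
    rw [e3, hδ, mul_sub, e1]
    ring
  -- `q w` is integral for `q ∈ fi f`
  have hqw : ∀ q ∈ fi f, IsIntegral ℤ (algebraMap k K q * w b₀ δ) := by
    intro q hq
    have hqb : IsIntegral ℤ (q * (b₀ : k)) := (mem_fi f q).1 hq b₀ hb₀
    have hqc : IsIntegral ℤ (q ^ 2 * (c₀ : k)) := by
      have h5 : ∃ t ∈ f * f, (t : k) = (c₀ : k) := ⟨c₀, by rwa [← pow_two], rfl⟩
      obtain ⟨t, ht, htq⟩ := (hdf f (c₀ : k)).2 h5 q hq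
      have h6 := (mem_fi f q).1 hq t ht
      rw [htq] at h6
      have : q ^ 2 * (c₀ : k) = q * (q * (c₀ : k)) := by ring
      rw [this]
      exact h6
    -- root of `X ^ 2 - (q b) X + q ^ 2 c` over the integers of `k`
    obtain ⟨tb, htb⟩ := (int_iff _).1 hqb
    obtain ⟨tc, htc⟩ := (int_iff _).1 hqc
    have h7 : IsIntegral (𝓞 k) (algebraMap k K q * w b₀ δ) := by
      refine ⟨Polynomial.X ^ 2 - Polynomial.C tb * Polynomial.X + Polynomial.C tc, ?_, ?_⟩
      · monicity!
      · simp only [Polynomial.eval₂_add, Polynomial.eval₂_sub, Polynomial.eval₂_mul,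
          Polynomial.eval₂_pow, Polynomial.eval₂_X, Polynomial.eval₂_C]
        have e1 : algebraMap (𝓞 k) K tb = algebraMap k K q * algebraMap k K (b₀ : k) := by
          rw [IsScalarTower.algebraMap_apply (𝓞 k) k K, ← map_mul, ← htb]
        have e2 : algebraMap (𝓞 k) K tc = algebraMap k K q ^ 2 * algebraMap k K (c₀ : k) := by
          rw [IsScalarTower.algebraMap_apply (𝓞 k) k K, ← map_pow, ← map_mul, ← htc]
        rw [e1, e2, mul_pow, hw]
        ring
    exact isIntegral_trans (R := ℤ) (A := 𝓞 k) _ h7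
  -- the submodule of the second coordinates
  have hfQ : ∀ q ∈ fi f, q ∈ QQ b₀ δ := by
    intro q hq
    refine ⟨0, ?_⟩
    rw [map_zero, zero_add]
    exact hqw q hq
  have hDQ : ∀ q ∈ QQ b₀ δ, IsIntegral ℤ ((D : k) * q) := by
    rintro q ⟨x, hx⟩
    have ht : IsIntegral ℤ (Algebra.trace k K (algebraMap k K x + algebraMap k K q * w b₀ δ)) :=
      Algebra.isIntegral_trace hx
    have hn : IsIntegral ℤ (Algebra.norm k (algebraMap k K x + algebraMap k K q * w b₀ δ)) :=
      Algebra.isIntegral_norm k hx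
    rw [hC4] at ht
    rw [hC3] at hn
    apply int_sq
    have e1 : ((D : k) * q) ^ 2 = (D : k) * (4 * (x ^ 2 + (b₀ : k) * x * q +
        ((b₀ : k) ^ 2 + (D : k)) / 4 * q ^ 2) - (2 * x + (b₀ : k) * q) ^ 2) := by
      field_simp
      ring
    rw [e1]
    have h4i : IsIntegral ℤ (4 : k) := by
      have := isIntegral_algebraMap (R := ℤ) (A := k) (x := 4)
      simpa using this
    exact D.isIntegral_coe.mul ((h4i.mul hn).sub (ht.pow 2))
  set g : Ideal (𝓞 k) := dual (QQ b₀ δ) with hg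
  have hDg : D ∈ g := hDQ
  have hg0 : g ≠ ⊥ := by
    intro h
    rw [h] at hDg
    exact hD0' ((Submodule.mem_bot (𝓞 k)).1 hDg)
  have h1Q : (1 : k) ∈ QQ b₀ δ := hfQ 1 h1f
  have hgQ : ∀ q, q ∈ fi g → q ∈ QQ b₀ δ := fi_dual (QQ b₀ δ) h1Q D hD0' hDQ
  have hQg : ∀ q, q ∈ QQ b₀ δ → q ∈ fi g := by
    intro q hq
    rw [mem_fi]
    intro a ha
    rw [mul_comm]
    exact ha q hq
  have hgf : g ≤ f := by
    intro a ha
    have h5 := (hdf ⊤ (a : k)).1 (fun q hq => by
      have h6 := ha q (hfQ q hq)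
      obtain ⟨t, ht⟩ := (int_iff _).1 h6
      exact ⟨t, Submodule.mem_top, by rw [ht, mul_comm]⟩)
    obtain ⟨t, ht, hta⟩ := h5
    rw [Ideal.top_mul] at ht
    have : t = a := RingOfIntegers.coe_injective hta
    rw [← this]
    exact ht
  -- the order with the discriminant `D g⁻²`
  have hval : Val g D := by
    obtain ⟨⟨s, hs, hs1⟩, -, -, -, h1g, hdg⟩ := hFNV k g hg0
    have hX : ∀ p ∈ s, ∃ x : k, IsIntegral ℤ (algebraMap k K x + algebraMap k K p.2 * w b₀ δ) :=
      fun p hp => hgQ p.2 (hs p hp).2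
    choose! X hX using hX
    obtain ⟨S0, hS0⟩ : ∃ S0 : k, S0 = ∑ p ∈ s, (p.1 : k) * X p := ⟨_, rfl⟩
    obtain ⟨w', hw'⟩ : ∃ w' : K, w' = algebraMap k K S0 + w b₀ δ := ⟨_, rfl⟩
    have hsum : w' = ∑ p ∈ s, algebraMap k K (p.1 : k) *
        (algebraMap k K (X p) + algebraMap k K p.2 * w b₀ δ) := by
      have e1 : ∑ p ∈ s, algebraMap k K (p.1 : k) *
          (algebraMap k K (X p) + algebraMap k K p.2 * w b₀ δ) =
          ∑ p ∈ s, algebraMap k K ((p.1 : k) * X p) +
            (∑ p ∈ s, algebraMap k K ((p.1 : k) * p.2)) * w b₀ δ := by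
        rw [Finset.sum_mul, ← Finset.sum_add_distrib]
        apply Finset.sum_congr rfl
        intro p _
        rw [map_mul, map_mul]
        ring
      rw [e1, ← map_sum, ← map_sum, hs1, map_one, one_mul, hw', hS0]
    have hint : ∀ q ∈ fi g, IsIntegral ℤ (algebraMap k K q * w') := by
      intro q hq
      rw [hsum, Finset.mul_sum]
      apply IsIntegral.sum
      intro p hp
      rw [← mul_assoc, ← map_mul]
      exact (int_map ((mem_fi g q).1 hq p.1 (hs p hp).1)).mul (hX p hp)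
    have hint' : ∀ q ∈ fi g, IsIntegral ℤ (algebraMap k K (q * S0) +
        algebraMap k K q * w b₀ δ) := by
      intro q hq
      have := hint q hq
      rw [hw', mul_add, ← map_mul] at this
      exact this
    -- the trace
    have htr : ∀ q ∈ fi g, IsIntegral ℤ (q * ((b₀ : k) + 2 * S0)) := by
      intro q hq
      have h5 : IsIntegral ℤ (Algebra.trace k K (algebraMap k K (q * S0) +
        algebraMap k K q * w b₀ δ)) := Algebra.isIntegral_trace (hint' q hq)
      rw [hC4] at h5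
      have : q * ((b₀ : k) + 2 * S0) = 2 * (q * S0) + (b₀ : k) * q := by ring
      rw [this]
      exact h5
    obtain ⟨b', hb'g, hb'⟩ := (hdg ⊤ ((b₀ : k) + 2 * S0)).1 (fun q hq => by
      obtain ⟨t, ht⟩ := (int_iff _).1 (htr q hq)
      exact ⟨t, Submodule.mem_top, ht⟩)
    rw [Ideal.top_mul] at hb'g
    -- the norm
    have hprod : ∀ q ∈ fi g, ∀ q' ∈ fi g,
        IsIntegral ℤ (q * (q' * (((b' : k) ^ 2 + (D : k)) / 4))) := by
      intro q hq q' hq'
      apply int_of_map (K := K)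
      have e1 : algebraMap k K (q * (q' * (((b' : k) ^ 2 + (D : k)) / 4))) =
          (algebraMap k K q * w') *
            (algebraMap k K (q' * (b' : k)) - algebraMap k K q' * w') := by
        have e2 : algebraMap k K (((b' : k) ^ 2 + (D : k)) / 4) =
            w' * (algebraMap k K (b' : k) - w') := by
          have e3 : w' = (algebraMap k K (b' : k) + δ) / 2 := by
            rw [hw', hb', w, map_add, map_mul, map_ofNat]
            ring
          rw [e3, map_div₀, map_add, map_pow, map_ofNat]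
          have e4 : algebraMap k K (D : k) = -δ ^ 2 := by rw [hδ, neg_neg]
          rw [e4]
          ring
        rw [map_mul, map_mul, e2, map_mul]
        ring
      rw [e1]
      have h6 : IsIntegral ℤ (algebraMap k K (q' * (b' : k))) :=
        int_map ((mem_fi g q').1 hq' b' hb'g)
      exact (hint q hq).mul (h6.sub (hint q' hq'))
    have hc1 : ∀ q' ∈ fi g, ∃ t ∈ g, (t : k) = q' * (((b' : k) ^ 2 + (D : k)) / 4) := by
      intro q' hq'
      obtain ⟨t, ht, ht'⟩ := (hdg ⊤ (q' * (((b' : k) ^ 2 + (D : k)) / 4))).1 (fun q hq => by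
        obtain ⟨t, ht⟩ := (int_iff _).1 (hprod q hq q' hq')
        exact ⟨t, Submodule.mem_top, ht⟩)
      rw [Ideal.top_mul] at ht
      exact ⟨t, ht, ht'⟩
    obtain ⟨c', hc'g, hc'⟩ := (hdg g (((b' : k) ^ 2 + (D : k)) / 4)).1 hc1
    refine ⟨b', hb'g, c', by rwa [pow_two], ?_⟩
    apply RingOfIntegers.coe_injective
    change algebraMap (𝓞 k) k (4 * c') = algebraMap (𝓞 k) k (b' ^ 2 + D)
    rw [map_mul, map_ofNat, map_add, map_pow]
    have e1 : algebraMap (𝓞 k) k c' = ((b' : k) ^ 2 + (D : k)) / 4 := hc'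
    rw [e1, mul_div_cancel₀ _ h4]
  -- `g = f`
  have hgeq : g = f := by
    obtain ⟨h, hh⟩ := Ideal.dvd_iff_le.2 hgf
    by_cases htop : h = ⊤
    · rw [hh, htop, Ideal.mul_top]
    · exfalso
      obtain ⟨P, hPmax, hhP⟩ := Ideal.exists_le_maximal h htop
      have hP0 : P ≠ ⊥ := by
        intro hP
        rw [hP, le_bot_iff] at hhP
        apply hg0
        rw [hh, hhP, Ideal.mul_bot]
      apply hmax P hPmax.isPrime hP0
      have hle : g ≤ f * P := by
        rw [hh]
        exact Ideal.mul_mono_right hhP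
      obtain ⟨b', hb', c', hc', he⟩ := hval
      exact ⟨b', hle hb', c', Ideal.pow_right_mono hle 2 hc', he⟩
  refine ⟨b₀, hf, hTP, hδ, ⟨top_ne_bot, hb₀, c₀, by rwa [Ideal.top_mul], hbc⟩, fun z => ?_⟩
  constructor
  · rintro ⟨t, rfl⟩
    obtain ⟨x, y, hxy⟩ := hC1 (t : K)
    have hyQ : y ∈ QQ b₀ δ := ⟨x, by rw [← hxy]; exact t.isIntegral_coe⟩
    have hyf : y ∈ fi f := by
      rw [← hgeq]
      exact hQg y hyQ
    have hxi : IsIntegral ℤ x := by
      apply int_of_map (K := K)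
      have : algebraMap k K x = (t : K) - algebraMap k K y * w b₀ δ := by
        rw [hxy]
        ring
      rw [this]
      exact t.isIntegral_coe.sub (hqw y hyf)
    obtain ⟨p, hp⟩ := (int_iff _).1 hxi
    exact ⟨p, y, hyf, by rw [hp]; exact hxy⟩
  · rintro ⟨p, q, hq, rfl⟩
    exact (int_iff _).1 ((int_map p.isIntegral_coe).add (hqw q hq))

end Main

end Pool.Agent.H36.NV
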